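import Mathlib

namespace Pool.Agent.N766.TK

/-- the sign attached to the state `(s, h, e)` -/
def om (s h e : ℤ) : ℤ :=
  if s % 4 = 0 then e
  else if s % 8 = 1 ∨ s % 8 = 3 ∨ s % 8 = 6 then (if h % 4 = 0 then 1 else -1)
  else (if h % 4 = 0 then -1 else 1)

/-- the admissible states -/
def Valid (s h e : ℤ) : Prop :=
  (e = 1 ∨ e = -1) ∧ (s % 8 = 0 → h % 4 = 2) ∧ (s % 8 = 4 → h % 4 = 0) ∧
    (s % 4 = 2 → h % 2 = 0) ∧ (s % 2 = 1 → (h % 4 = 0 ∨ (h - s - 2) % 4 = 0))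

theorem om_cases {s h e : ℤ} (he : e = 1 ∨ e = -1) : om s h e = 1 ∨ om s h e = -1 := by
  unfold om
  split_ifs <;> simp_all

theorem om_one {s h e : ℤ} (h1 : om s h e = 1) :
    (s % 4 = 0 → e = 1) ∧ (s % 8 = 1 ∨ s % 8 = 3 ∨ s % 8 = 6 → h % 4 = 0) ∧
      (s % 8 = 2 ∨ s % 8 = 5 ∨ s % 8 = 7 → h % 4 ≠ 0) := by
  unfold om at h1
  split_ifs at h1 <;> omega

theorem om_neg {s h e : ℤ} (h1 : om s h e = -1) :
    (s % 4 = 0 → e = -1) ∧ (s % 8 = 1 ∨ s % 8 = 3 ∨ s % 8 = 6 → h % 4 ≠ 0) ∧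
      (s % 8 = 2 ∨ s % 8 = 5 ∨ s % 8 = 7 → h % 4 = 0) := by
  unfold om at h1
  split_ifs at h1 <;> omega

theorem valid_left {s h e : ℤ} (hv : Valid s h e) :
    Valid (s + om s h e) (2 * h) (om s h e) := by
  obtain ⟨he, h0, h4, h2, h1⟩ := hv
  rcases om_cases (s := s) (h := h) he with hw | hw
  · obtain ⟨a, b, c⟩ := om_one hw
    rw [hw]
    refine ⟨Or.inl rfl, ?_, ?_, ?_, ?_⟩ <;> omega
  · obtain ⟨a, b, c⟩ := om_neg hw
    rw [hw]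
    refine ⟨Or.inr rfl, ?_, ?_, ?_, ?_⟩ <;> omega

theorem valid_right {s h e : ℤ} (hv : Valid s h e) :
    Valid (s - om s h e) (2 * h + s + om s h e) (- om s h e) := by
  obtain ⟨he, h0, h4, h2, h1⟩ := hv
  rcases om_cases (s := s) (h := h) he with hw | hw
  · obtain ⟨a, b, c⟩ := om_one hw
    rw [hw]
    refine ⟨Or.inr rfl, ?_, ?_, ?_, ?_⟩ <;> omega
  · obtain ⟨a, b, c⟩ := om_neg hw
    rw [hw]
    refine ⟨Or.inl rfl, ?_, ?_, ?_, ?_⟩ <;> omega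

/-- the list of all admissible states together with their signs -/
theorem spec {s h e : ℤ} (hv : Valid s h e) :
    (s % 8 = 0 ∧ h % 4 = 2 ∧ e = om s h e) ∨ (s % 8 = 1 ∧ h % 4 = 0 ∧ om s h e = 1) ∨
    (s % 8 = 1 ∧ h % 4 = 3 ∧ om s h e = -1) ∨ (s % 8 = 2 ∧ h % 4 = 0 ∧ om s h e = -1) ∨
    (s % 8 = 2 ∧ h % 4 = 2 ∧ om s h e = 1) ∨ (s % 8 = 3 ∧ h % 4 = 0 ∧ om s h e = 1) ∨
    (s % 8 = 3 ∧ h % 4 = 1 ∧ om s h e = -1) ∨ (s % 8 = 4 ∧ h % 4 = 0 ∧ e = om s h e) ∨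
    (s % 8 = 5 ∧ h % 4 = 0 ∧ om s h e = -1) ∨ (s % 8 = 5 ∧ h % 4 = 3 ∧ om s h e = 1) ∨
    (s % 8 = 6 ∧ h % 4 = 0 ∧ om s h e = 1) ∨ (s % 8 = 6 ∧ h % 4 = 2 ∧ om s h e = -1) ∨
    (s % 8 = 7 ∧ h % 4 = 0 ∧ om s h e = -1) ∨ (s % 8 = 7 ∧ h % 4 = 1 ∧ om s h e = 1) := by
  obtain ⟨he, h0, h4, h2, h1⟩ := hv
  have h8 : s % 8 = 0 ∨ s % 8 = 1 ∨ s % 8 = 2 ∨ s % 8 = 3 ∨ s % 8 = 4 ∨ s % 8 = 5 ∨
    s % 8 = 6 ∨ s % 8 = 7 := by omega
  unfold om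
  rcases h8 with r | r | r | r | r | r | r | r
  · have e4 : s % 4 = 0 := by omega
    have := h0 r
    simp [r, e4, this]
  · have e4 : s % 4 = 1 := by omega
    have := h1 (by omega)
    have h4' : h % 4 = 0 ∨ h % 4 = 3 := by omega
    rcases h4' with q | q <;> simp [r, e4, q]
  · have e4 : s % 4 = 2 := by omega
    have := h2 (by omega)
    have h4' : h % 4 = 0 ∨ h % 4 = 2 := by omega
    rcases h4' with q | q <;> simp [r, e4, q]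
  · have e4 : s % 4 = 3 := by omega
    have := h1 (by omega)
    have h4' : h % 4 = 0 ∨ h % 4 = 1 := by omega
    rcases h4' with q | q <;> simp [r, e4, q]
  · have e4 : s % 4 = 0 := by omega
    have := h4 r
    simp [r, e4, this]
  · have e4 : s % 4 = 1 := by omega
    have := h1 (by omega)
    have h4' : h % 4 = 0 ∨ h % 4 = 3 := by omega
    rcases h4' with q | q <;> simp [r, e4, q]
  · have e4 : s % 4 = 2 := by omega
    have := h2 (by omega)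
    have h4' : h % 4 = 0 ∨ h % 4 = 2 := by omega
    rcases h4' with q | q <;> simp [r, e4, q]
  · have e4 : s % 4 = 3 := by omega
    have := h1 (by omega)
    have h4' : h % 4 = 0 ∨ h % 4 = 1 := by omega
    rcases h4' with q | q <;> simp [r, e4, q]

end Pool.Agent.N766.TK
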