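import Pool.Agent.N766.TK.Fun

open Finset MeasureTheory Filter Topology
open scoped ENNReal NNReal

namespace Pool.Agent.N766.TK

/-- the dyadic intervals of level `n` meeting the level set at height `y` -/
def Hit (y : ℝ) (n : ℕ) : Set ℕ :=
  {j : ℕ | j < 2 ^ n ∧
    ({x : ℝ | x ∈ Set.Icc (0 : ℝ) 1 ∧ F x = y} ∩
      Set.Ico ((j : ℝ) / 2 ^ n) (((j : ℝ) + 1) / 2 ^ n)).Nonempty}

theorem J_eq {n j : ℕ} {x : ℝ} (hx : x ∈ Set.Ico ((j : ℝ) / 2 ^ n) (((j : ℝ) + 1) / 2 ^ n)) :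
    J n x = j := by
  have hpos : (0 : ℝ) < 2 ^ n := by positivity
  obtain ⟨h1, h2⟩ := hx
  rw [div_le_iff₀ hpos] at h1
  rw [lt_div_iff₀ hpos] at h2
  unfold J
  rw [Nat.floor_eq_iff (by nlinarith [Nat.cast_nonneg (α := ℝ) j])]
  constructor <;> linarith

theorem hit_card (y : ℝ) (n : ℕ) : (Hit y n).ncard ≤ 8 * (n + 1) ^ 2 := by
  set Y : ℝ := 2 ^ n * (y + 2) with hY
  set T : Finset (ℤ × ℤ × ℤ) := (Finset.Icc (-(n : ℤ)) n) ×ˢ
    ((Finset.Icc ⌈Y - n - 1⌉ ⌊Y + n + 1⌋) ×ˢ ({1, -1} : Finset ℤ)) with hT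
  have hcard : T.card ≤ 8 * (n + 1) ^ 2 := by
    rw [hT, card_product, card_product]
    have c1 : (Finset.Icc (-(n : ℤ)) n).card = 2 * n + 1 := by
      rw [Int.card_Icc]; omega
    have c2 : (Finset.Icc ⌈Y - n - 1⌉ ⌊Y + n + 1⌋).card ≤ 2 * n + 3 := by
      rw [Int.card_Icc]
      have a1 : Y - n - 1 ≤ (⌈Y - n - 1⌉ : ℝ) := Int.le_ceil _
      have a2 : (⌊Y + n + 1⌋ : ℝ) ≤ Y + n + 1 := Int.floor_le _
      have a3 : (⌊Y + n + 1⌋ : ℝ) + 1 - ⌈Y - n - 1⌉ ≤ 2 * n + 3 := by linarith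
      have a4 : ⌊Y + n + 1⌋ + 1 - ⌈Y - n - 1⌉ ≤ 2 * (n : ℤ) + 3 := by exact_mod_cast a3
      omega
    have c3 : ({1, -1} : Finset ℤ).card ≤ 2 := Finset.card_le_two
    calc _ ≤ (2 * n + 1) * ((2 * n + 3) * 2) := by
          rw [c1]; gcongr
      _ ≤ 8 * (n + 1) ^ 2 := by nlinarith
  refine le_trans ?_ hcard
  rw [← Set.ncard_coe_finset]
  refine Set.ncard_le_ncard_of_injOn (fun j => st n j) ?_ ?_ (Finset.finite_toSet T)
  · intro j hj
    obtain ⟨hj1, x, ⟨hx1, hx2⟩, hx3⟩ := hj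
    have hJ := J_eq hx3
    have hw := mem_window n x hx1.1
    rw [hJ, hx2, ← hY] at hw
    obtain ⟨s1, s2⟩ := st_abs n j
    have he := (st_valid n j).1
    obtain ⟨w1, w2⟩ := abs_le.1 hw
    simp only [hT, Finset.mem_coe, mem_product, Finset.mem_Icc, Finset.mem_insert,
      Finset.mem_singleton]
    refine ⟨⟨s1, s2⟩, ⟨?_, ?_⟩, he⟩
    · rw [Int.ceil_le]; linarith
    · rw [Int.le_floor]; linarith
  · intro j hj j' hj' h
    simp only at h
    exact st_inj n j j' hj.1 hj'.1 (by rw [h]) (by rw [h]) (fun _ => by rw [h])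

theorem hit_finite (y : ℝ) (n : ℕ) : (Hit y n).Finite :=
  (Set.finite_lt_nat (2 ^ n)).subset fun _ h => h.1

/-- the level set without the point `1` -/
def L0 (y : ℝ) : Set ℝ := {x : ℝ | x ∈ Set.Ico (0 : ℝ) 1 ∧ F x = y}

theorem cover (y : ℝ) (n : ℕ) :
    L0 y ⊆ ⋃ j : (hit_finite y n).toFinset,
      Set.Icc ((j : ℕ) / 2 ^ n : ℝ) (((j : ℕ) + 1 : ℝ) / 2 ^ n) := by
  intro x hx
  obtain ⟨⟨h0, h1⟩, hF⟩ := hx
  have hpos : (0 : ℝ) < 2 ^ n := by positivity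
  have hJ1 : (J n x : ℝ) ≤ 2 ^ n * x := Nat.floor_le (by positivity)
  have hJ2 : 2 ^ n * x < (J n x : ℝ) + 1 := Nat.lt_floor_add_one _
  have hI : x ∈ Set.Ico ((J n x : ℝ) / 2 ^ n) (((J n x : ℝ) + 1) / 2 ^ n) := by
    constructor
    · rw [div_le_iff₀ hpos]; linarith
    · rw [lt_div_iff₀ hpos]; linarith
  have hlt : J n x < 2 ^ n := by
    have : (J n x : ℝ) < 2 ^ n := by nlinarith
    exact_mod_cast this
  have hmem : J n x ∈ Hit y n := ⟨hlt, x, ⟨⟨h0, h1.le⟩, hF⟩, hI⟩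
  rw [Set.mem_iUnion]
  refine ⟨⟨J n x, by simpa using hmem⟩, ?_⟩
  exact ⟨hI.1, hI.2.le⟩

theorem hausdorff_zero (y : ℝ) (d : ℝ) (hd : 0 < d) : μH[d] (L0 y) = 0 := by
  have hr : Tendsto (fun n : ℕ => ENNReal.ofReal ((1 / 2) ^ n)) atTop (𝓝 0) := by
    rw [← ENNReal.ofReal_zero]
    exact ENNReal.tendsto_ofReal
      (tendsto_pow_atTop_nhds_zero_of_lt_one (by norm_num) (by norm_num))
  have hdiam : ∀ n : ℕ, ∀ j : ℕ,
      Metric.ediam (Set.Icc ((j : ℕ) / 2 ^ n : ℝ) (((j : ℕ) + 1 : ℝ) / 2 ^ n)) =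
        ENNReal.ofReal ((1 / 2) ^ n) := by
    intro n j
    rw [Real.ediam_Icc]
    congr 1
    rw [one_div_pow]
    ring
  have key := Measure.hausdorffMeasure_le_liminf_sum (X := ℝ) d (L0 y) (l := atTop)
    (fun n : ℕ => ENNReal.ofReal ((1 / 2) ^ n)) hr
    (fun (n : ℕ) (j : (hit_finite y n).toFinset) =>
      Set.Icc ((j : ℕ) / 2 ^ n : ℝ) (((j : ℕ) + 1 : ℝ) / 2 ^ n))
    (Eventually.of_forall fun n j => (hdiam n j).le)
    (Eventually.of_forall fun n => cover y n)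
  have hlim : Tendsto (fun n : ℕ => ∑ j : (hit_finite y n).toFinset,
      Metric.ediam (Set.Icc ((j : ℕ) / 2 ^ n : ℝ) (((j : ℕ) + 1 : ℝ) / 2 ^ n)) ^ d)
      atTop (𝓝 0) := by
    have hb : ∀ n : ℕ, (∑ j : (hit_finite y n).toFinset,
        Metric.ediam (Set.Icc ((j : ℕ) / 2 ^ n : ℝ) (((j : ℕ) + 1 : ℝ) / 2 ^ n)) ^ d) ≤
        ENNReal.ofReal ((8 * ((n : ℝ) + 1) ^ 2) * ((1 / 2 : ℝ) ^ d) ^ n) := by
      intro n
      simp only [hdiam]
      rw [Finset.sum_const, Finset.card_univ, Fintype.card_coe,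
        ← Set.ncard_eq_toFinset_card (Hit y n) (hit_finite y n), nsmul_eq_mul,
        ENNReal.ofReal_mul (by positivity),
        ENNReal.ofReal_rpow_of_nonneg (by positivity) hd.le]
      have e1 : ((1 / 2 : ℝ) ^ n) ^ d = ((1 / 2 : ℝ) ^ d) ^ n := by
        rw [← Real.rpow_natCast, ← Real.rpow_mul (by norm_num), mul_comm,
          Real.rpow_mul (by norm_num), Real.rpow_natCast]
      rw [e1]
      gcongr
      have := hit_card y n
      have h2 : ((Hit y n).ncard : ℝ) ≤ 8 * ((n : ℝ) + 1) ^ 2 := by exact_mod_cast this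
      calc ((Hit y n).ncard : ℝ≥0∞) = ENNReal.ofReal ((Hit y n).ncard : ℝ) := by
            rw [ENNReal.ofReal_natCast]
        _ ≤ _ := ENNReal.ofReal_le_ofReal h2
    have hg : Tendsto (fun n : ℕ =>
        ENNReal.ofReal ((8 * ((n : ℝ) + 1) ^ 2) * ((1 / 2 : ℝ) ^ d) ^ n)) atTop (𝓝 0) := by
      rw [← ENNReal.ofReal_zero]
      apply ENNReal.tendsto_ofReal
      have hq0 : 0 ≤ (1 / 2 : ℝ) ^ d := by positivity
      have hq1 : (1 / 2 : ℝ) ^ d < 1 := Real.rpow_lt_one (by norm_num) (by norm_num) hd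
      have hq : |(1 / 2 : ℝ) ^ d| < 1 := by rw [abs_of_nonneg hq0]; exact hq1
      have t2 := tendsto_pow_const_mul_const_pow_of_abs_lt_one 2 hq
      have t1 := tendsto_pow_const_mul_const_pow_of_abs_lt_one 1 hq
      have t0 := tendsto_pow_const_mul_const_pow_of_abs_lt_one 0 hq
      have := ((t2.const_mul 8).add (t1.const_mul 16)).add (t0.const_mul 8)
      simp only [mul_zero, add_zero] at this
      refine this.congr fun n => ?_
      ring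
    exact tendsto_of_tendsto_of_tendsto_of_le_of_le tendsto_const_nhds hg
      (fun _ => zero_le) hb
  rw [hlim.liminf_eq] at key
  exact le_antisymm key zero_le

theorem dim_zero (y : ℝ) : dimH {x : ℝ | x ∈ Set.Icc (0 : ℝ) 1 ∧ F x = y} = 0 := by
  have h0 : dimH (L0 y) = 0 := by
    refine le_antisymm ?_ zero_le
    refine ENNReal.le_of_forall_pos_le_add ?_
    intro ε hε _
    rw [zero_add]
    refine dimH_le_of_hausdorffMeasure_ne_top (d := ε) ?_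
    rw [hausdorff_zero y ε (by exact_mod_cast hε)]
    exact ENNReal.zero_ne_top
  have hsub : {x : ℝ | x ∈ Set.Icc (0 : ℝ) 1 ∧ F x = y} ⊆ L0 y ∪ {1} := by
    intro x hx
    obtain ⟨⟨a, b⟩, c⟩ := hx
    rcases b.lt_or_eq with h | h
    · exact Or.inl ⟨⟨a, h⟩, c⟩
    · exact Or.inr h
  refine le_antisymm ?_ zero_le
  calc dimH _ ≤ dimH (L0 y ∪ {1}) := dimH_mono hsub
    _ = 0 := by rw [dimH_union, h0, dimH_singleton]; simp

end Pool.Agent.N766.TK
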