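import Pool.Agent.N766.TK.St

open Finset

namespace Pool.Agent.N766.TK

/-- distance to the nearest integer -/
noncomputable def phi (x : ℝ) : ℝ := |x - round x|

theorem phi_le (x : ℝ) : |phi x| ≤ 1 / 2 := by
  unfold phi; rw [abs_abs]; exact abs_sub_round x

theorem phi_left {y : ℝ} {j : ℕ} (h1 : (j : ℝ) ≤ y) (h2 : y < j + 1 / 2) : phi y = y - j := by
  unfold phi
  rw [abs_sub_round_eq_min]
  have hf : ⌊y⌋ = (j : ℤ) := by
    rw [Int.floor_eq_iff]; push_cast; constructor <;> linarith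
  have : Int.fract y = y - j := by unfold Int.fract; rw [hf]; push_cast; ring
  rw [this]
  exact min_eq_left (by linarith)

theorem phi_right {y : ℝ} {j : ℕ} (h1 : (j : ℝ) + 1 / 2 ≤ y) (h2 : y < j + 1) :
    phi y = j + 1 - y := by
  unfold phi
  rw [abs_sub_round_eq_min]
  have hf : ⌊y⌋ = (j : ℤ) := by
    rw [Int.floor_eq_iff]; push_cast; constructor <;> linarith
  have : Int.fract y = y - j := by unfold Int.fract; rw [hf]; push_cast; ring
  rw [this, min_eq_right (by linarith)]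
  ring

/-- index of the dyadic interval of level `n` containing `x` -/
noncomputable def J (n : ℕ) (x : ℝ) : ℕ := ⌊2 ^ n * x⌋₊

theorem J_half (n : ℕ) (x : ℝ) : J (n + 1) x / 2 = J n x := by
  unfold J
  have := Nat.floor_div_natCast ((2 : ℝ) ^ (n + 1) * x) 2
  rw [← this]
  congr 1
  push_cast
  rw [pow_succ]; ring

/-- the sign functions -/
noncomputable def sg (n : ℕ) (x : ℝ) : ℝ :=
  ((om (st n (J n x)).1 (st n (J n x)).2.1 (st n (J n x)).2.2 : ℤ) : ℝ)

theorem sg_cases (n : ℕ) (x : ℝ) : sg n x = 1 ∨ sg n x = -1 := by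
  unfold sg
  rcases om_cases (s := (st n (J n x)).1) (h := (st n (J n x)).2.1) (st_valid n (J n x)).1 with
    h | h <;> rw [h] <;> simp

theorem partial_sum (n : ℕ) (x : ℝ) (hx : 0 ≤ x) :
    ∑ k ∈ range n, sg k x / 2 ^ k * phi (2 ^ k * x) + 2 =
      ((st n (J n x)).2.1 : ℝ) / 2 ^ n + ((st n (J n x)).1 : ℝ) * (x - (J n x : ℝ) / 2 ^ n) := by
  induction n with
  | zero => simp [st]
  | succ n ih =>
    rw [sum_range_succ]
    have hj := J_half n x
    have hJ1 : (J n x : ℝ) ≤ 2 ^ n * x := Nat.floor_le (by positivity)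
    have hJ2 : 2 ^ n * x < (J n x : ℝ) + 1 := Nat.lt_floor_add_one _
    have hK1 : (J (n + 1) x : ℝ) ≤ 2 ^ (n + 1) * x := Nat.floor_le (by positivity)
    have hK2 : 2 ^ (n + 1) * x < (J (n + 1) x : ℝ) + 1 := Nat.lt_floor_add_one _
    have h2 : (2 : ℝ) ^ (n + 1) = 2 ^ n * 2 := pow_succ 2 n
    have hpos : (0 : ℝ) < 2 ^ n := by positivity
    have hst : st (n + 1) (J (n + 1) x) = child (st n (J n x)) (J (n + 1) x % 2) := by
      simp only [st]; rw [hj]
    rw [h2] at hK1 hK2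
    have e : ∑ k ∈ range n, sg k x / 2 ^ k * phi (2 ^ k * x) =
        ((st n (J n x)).2.1 : ℝ) / 2 ^ n + ((st n (J n x)).1 : ℝ) * (x - (J n x : ℝ) / 2 ^ n)
          - 2 := by linarith
    rw [e, hst]
    rcases Nat.mod_two_eq_zero_or_one (J (n + 1) x) with hb | hb
    · have hjj : J (n + 1) x = 2 * J n x := by omega
      rw [hb]
      simp only [child, if_true]
      rw [hjj] at hK1 hK2 ⊢
      push_cast at hK1 hK2 ⊢
      rw [phi_left hJ1 (by linarith)]
      unfold sg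
      field_simp
      ring
    · have hjj : J (n + 1) x = 2 * J n x + 1 := by omega
      rw [hb]
      simp only [child]
      rw [if_neg (by norm_num)]
      rw [hjj] at hK1 hK2 ⊢
      push_cast at hK1 hK2 ⊢
      rw [phi_right (by linarith) hJ2]
      unfold sg
      field_simp
      ring

theorem term_bound (x : ℝ) (k : ℕ) :
    ‖sg k x / 2 ^ k * phi (2 ^ k * x)‖ ≤ (1 / 2) * (1 / 2) ^ k := by
  rw [norm_mul, norm_div]
  have h1 : ‖sg k x‖ = 1 := by rcases sg_cases k x with h | h <;> rw [h] <;> simp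
  have h2 : ‖phi (2 ^ k * x)‖ ≤ 1 / 2 := phi_le _
  rw [h1]
  have h3 : ‖(2 : ℝ) ^ k‖ = 2 ^ k := by rw [norm_pow]; simp
  rw [h3, one_div_pow]
  have : (0 : ℝ) ≤ 1 / 2 ^ k := by positivity
  nlinarith

theorem summ (x : ℝ) : Summable fun k : ℕ => sg k x / 2 ^ k * phi (2 ^ k * x) := by
  refine Summable.of_norm_bounded ?_ (term_bound x)
  exact (summable_geometric_two).mul_left _

/-- the function -/
noncomputable def F (x : ℝ) : ℝ := ∑' k : ℕ, sg k x / 2 ^ k * phi (2 ^ k * x)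

theorem tail (n : ℕ) (x : ℝ) :
    |F x - ∑ k ∈ range n, sg k x / 2 ^ k * phi (2 ^ k * x)| ≤ (1 / 2) ^ n := by
  have h := (summ x).sum_add_tsum_nat_add n
  have e : F x - ∑ k ∈ range n, sg k x / 2 ^ k * phi (2 ^ k * x) =
      ∑' k : ℕ, sg (k + n) x / 2 ^ (k + n) * phi (2 ^ (k + n) * x) := by
    unfold F; rw [← h]; ring
  rw [e]
  have hs : HasSum (fun k : ℕ => (1 / 2 : ℝ) * (1 / 2) ^ (k + n)) ((1 / 2) ^ n) := by
    have h0 := hasSum_geometric_two.mul_left ((1 / 2 : ℝ) * (1 / 2) ^ n)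
    have e1 : (fun k : ℕ => (1 / 2 : ℝ) * (1 / 2) ^ (k + n)) =
        fun k => ((1 / 2 : ℝ) * (1 / 2) ^ n) * (1 / 2) ^ k := by
      ext k; rw [pow_add]; ring
    have e2 : (1 / 2 : ℝ) * (1 / 2) ^ n * 2 = (1 / 2) ^ n := by ring
    rw [e1]
    rwa [e2] at h0
  exact tsum_of_norm_bounded hs (fun k => term_bound x (k + n))

theorem mem_window (n : ℕ) (x : ℝ) (hx : 0 ≤ x) :
    |((st n (J n x)).2.1 : ℝ) - 2 ^ n * (F x + 2)| ≤ n + 1 := by
  have h1 := partial_sum n x hx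
  have h2 := tail n x
  have hJ1 : (J n x : ℝ) ≤ 2 ^ n * x := Nat.floor_le (by positivity)
  have hJ2 : 2 ^ n * x < (J n x : ℝ) + 1 := Nat.lt_floor_add_one _
  have hpos : (0 : ℝ) < 2 ^ n := by positivity
  obtain ⟨s1, s2⟩ := st_abs n (J n x)
  have s1' : -(n : ℝ) ≤ ((st n (J n x)).1 : ℝ) := by exact_mod_cast s1
  have s2' : ((st n (J n x)).1 : ℝ) ≤ n := by exact_mod_cast s2
  set S := ∑ k ∈ range n, sg k x / 2 ^ k * phi (2 ^ k * x)
  set h := ((st n (J n x)).2.1 : ℝ)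
  set s := ((st n (J n x)).1 : ℝ)
  have e : h - 2 ^ n * (F x + 2) = - (2 ^ n * (F x - S)) - s * (2 ^ n * x - J n x) := by
    have : h = 2 ^ n * (S + 2) - s * (2 ^ n * x - J n x) := by
      rw [h1]; field_simp; ring
    rw [this]; ring
  rw [e]
  have b1 : |2 ^ n * (F x - S)| ≤ 1 := by
    rw [abs_mul, abs_of_pos hpos]
    calc 2 ^ n * |F x - S| ≤ 2 ^ n * (1 / 2) ^ n := by gcongr
      _ = 1 := by rw [one_div_pow]; field_simp
  have b2 : |s * (2 ^ n * x - J n x)| ≤ n := by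
    rw [abs_mul]
    have a1 : |s| ≤ n := abs_le.2 ⟨s1', s2'⟩
    have a2 : |2 ^ n * x - (J n x : ℝ)| ≤ 1 := by rw [abs_le]; constructor <;> linarith
    calc |s| * |2 ^ n * x - (J n x : ℝ)| ≤ n * 1 := by gcongr
      _ = n := mul_one _
  have := abs_sub (-(2 ^ n * (F x - S))) (s * (2 ^ n * x - J n x))
  rw [abs_neg] at this
  linarith

end Pool.Agent.N766.TK
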