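import Pool.Agent.N766.TK.Comb

namespace Pool.Agent.N766.TK

theorem noLL {s1 h1 e1 s2 h2 e2 : ℤ} (v1 : Valid s1 h1 e1) (v2 : Valid s2 h2 e2)
    (hw : om s1 h1 e1 = 1) (hu : om s2 h2 e2 = -1) (hs : s2 = s1 + 2)
    (hh : h1 = h2) (he : (s1 + 1) % 4 ≠ 0) : False := by
  have t1 := spec v1
  have t2 := spec v2
  rw [hw] at t1
  rw [hu] at t2
  clear v1 v2 hw hu
  rcases t1 with ⟨p, q, r⟩ | ⟨p, q, r⟩ | ⟨p, q, r⟩ | ⟨p, q, r⟩ | ⟨p, q, r⟩ | ⟨p, q, r⟩ |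
    ⟨p, q, r⟩ | ⟨p, q, r⟩ | ⟨p, q, r⟩ | ⟨p, q, r⟩ | ⟨p, q, r⟩ | ⟨p, q, r⟩ | ⟨p, q, r⟩ |
    ⟨p, q, r⟩ <;> try (exfalso; revert r; norm_num; done)
  all_goals
    rcases t2 with ⟨p', q', r'⟩ | ⟨p', q', r'⟩ | ⟨p', q', r'⟩ | ⟨p', q', r'⟩ | ⟨p', q', r'⟩ |
      ⟨p', q', r'⟩ | ⟨p', q', r'⟩ | ⟨p', q', r'⟩ | ⟨p', q', r'⟩ | ⟨p', q', r'⟩ | ⟨p', q', r'⟩ |
      ⟨p', q', r'⟩ | ⟨p', q', r'⟩ | ⟨p', q', r'⟩ <;> omega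

theorem noRR {s1 h1 e1 s2 h2 e2 : ℤ} (v1 : Valid s1 h1 e1) (v2 : Valid s2 h2 e2)
    (hw : om s1 h1 e1 = 1) (hu : om s2 h2 e2 = -1) (hs : s2 = s1 - 2)
    (hh : h2 = h1 + 2) (he : (s1 - 1) % 4 ≠ 0) : False := by
  have t1 := spec v1
  have t2 := spec v2
  rw [hw] at t1
  rw [hu] at t2
  clear v1 v2 hw hu
  rcases t1 with ⟨p, q, r⟩ | ⟨p, q, r⟩ | ⟨p, q, r⟩ | ⟨p, q, r⟩ | ⟨p, q, r⟩ | ⟨p, q, r⟩ |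
    ⟨p, q, r⟩ | ⟨p, q, r⟩ | ⟨p, q, r⟩ | ⟨p, q, r⟩ | ⟨p, q, r⟩ | ⟨p, q, r⟩ | ⟨p, q, r⟩ |
    ⟨p, q, r⟩ <;> try (exfalso; revert r; norm_num; done)
  all_goals
    rcases t2 with ⟨p', q', r'⟩ | ⟨p', q', r'⟩ | ⟨p', q', r'⟩ | ⟨p', q', r'⟩ | ⟨p', q', r'⟩ |
      ⟨p', q', r'⟩ | ⟨p', q', r'⟩ | ⟨p', q', r'⟩ | ⟨p', q', r'⟩ | ⟨p', q', r'⟩ | ⟨p', q', r'⟩ |
      ⟨p', q', r'⟩ | ⟨p', q', r'⟩ | ⟨p', q', r'⟩ <;> omega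

theorem noLRpp {s1 h1 e1 s2 h2 e2 : ℤ} (v1 : Valid s1 h1 e1) (v2 : Valid s2 h2 e2)
    (hw : om s1 h1 e1 = 1) (hu : om s2 h2 e2 = 1) (hs : s2 = s1 + 2)
    (hh : 2 * h1 = 2 * h2 + s1 + 3) (he : (s1 + 1) % 4 ≠ 0) : False := by
  have t1 := spec v1
  have t2 := spec v2
  rw [hw] at t1
  rw [hu] at t2
  clear v1 v2 hw hu
  rcases t1 with ⟨p, q, r⟩ | ⟨p, q, r⟩ | ⟨p, q, r⟩ | ⟨p, q, r⟩ | ⟨p, q, r⟩ | ⟨p, q, r⟩ |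
    ⟨p, q, r⟩ | ⟨p, q, r⟩ | ⟨p, q, r⟩ | ⟨p, q, r⟩ | ⟨p, q, r⟩ | ⟨p, q, r⟩ | ⟨p, q, r⟩ |
    ⟨p, q, r⟩ <;> try (exfalso; revert r; norm_num; done)
  all_goals
    rcases t2 with ⟨p', q', r'⟩ | ⟨p', q', r'⟩ | ⟨p', q', r'⟩ | ⟨p', q', r'⟩ | ⟨p', q', r'⟩ |
      ⟨p', q', r'⟩ | ⟨p', q', r'⟩ | ⟨p', q', r'⟩ | ⟨p', q', r'⟩ | ⟨p', q', r'⟩ | ⟨p', q', r'⟩ |
      ⟨p', q', r'⟩ | ⟨p', q', r'⟩ | ⟨p', q', r'⟩ <;> omega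

theorem noLRpm {s1 h1 e1 s2 h2 e2 : ℤ} (v1 : Valid s1 h1 e1) (v2 : Valid s2 h2 e2)
    (hw : om s1 h1 e1 = 1) (hu : om s2 h2 e2 = -1) (hs : s2 = s1)
    (hh : 2 * h1 = 2 * h2 + s1 - 1) : False := by
  have t1 := spec v1
  have t2 := spec v2
  rw [hw] at t1
  rw [hu] at t2
  clear v1 v2 hw hu
  rcases t1 with ⟨p, q, r⟩ | ⟨p, q, r⟩ | ⟨p, q, r⟩ | ⟨p, q, r⟩ | ⟨p, q, r⟩ | ⟨p, q, r⟩ |
    ⟨p, q, r⟩ | ⟨p, q, r⟩ | ⟨p, q, r⟩ | ⟨p, q, r⟩ | ⟨p, q, r⟩ | ⟨p, q, r⟩ | ⟨p, q, r⟩ |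
    ⟨p, q, r⟩ <;> try (exfalso; revert r; norm_num; done)
  all_goals
    rcases t2 with ⟨p', q', r'⟩ | ⟨p', q', r'⟩ | ⟨p', q', r'⟩ | ⟨p', q', r'⟩ | ⟨p', q', r'⟩ |
      ⟨p', q', r'⟩ | ⟨p', q', r'⟩ | ⟨p', q', r'⟩ | ⟨p', q', r'⟩ | ⟨p', q', r'⟩ | ⟨p', q', r'⟩ |
      ⟨p', q', r'⟩ | ⟨p', q', r'⟩ | ⟨p', q', r'⟩ <;> omega

theorem noLRmp {s1 h1 e1 s2 h2 e2 : ℤ} (v1 : Valid s1 h1 e1) (v2 : Valid s2 h2 e2)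
    (hw : om s1 h1 e1 = -1) (hu : om s2 h2 e2 = 1) (hs : s2 = s1)
    (hh : 2 * h1 = 2 * h2 + s1 + 1) : False := by
  have t1 := spec v1
  have t2 := spec v2
  rw [hw] at t1
  rw [hu] at t2
  clear v1 v2 hw hu
  rcases t1 with ⟨p, q, r⟩ | ⟨p, q, r⟩ | ⟨p, q, r⟩ | ⟨p, q, r⟩ | ⟨p, q, r⟩ | ⟨p, q, r⟩ |
    ⟨p, q, r⟩ | ⟨p, q, r⟩ | ⟨p, q, r⟩ | ⟨p, q, r⟩ | ⟨p, q, r⟩ | ⟨p, q, r⟩ | ⟨p, q, r⟩ |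
    ⟨p, q, r⟩ <;> try (exfalso; revert r; norm_num; done)
  all_goals
    rcases t2 with ⟨p', q', r'⟩ | ⟨p', q', r'⟩ | ⟨p', q', r'⟩ | ⟨p', q', r'⟩ | ⟨p', q', r'⟩ |
      ⟨p', q', r'⟩ | ⟨p', q', r'⟩ | ⟨p', q', r'⟩ | ⟨p', q', r'⟩ | ⟨p', q', r'⟩ | ⟨p', q', r'⟩ |
      ⟨p', q', r'⟩ | ⟨p', q', r'⟩ | ⟨p', q', r'⟩ <;> omega

theorem noLRmm {s1 h1 e1 s2 h2 e2 : ℤ} (v1 : Valid s1 h1 e1) (v2 : Valid s2 h2 e2)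
    (hw : om s1 h1 e1 = -1) (hu : om s2 h2 e2 = -1) (hs : s2 = s1 - 2)
    (hh : 2 * h1 = 2 * h2 + s1 - 3) (he : (s1 - 1) % 4 ≠ 0) : False := by
  have t1 := spec v1
  have t2 := spec v2
  rw [hw] at t1
  rw [hu] at t2
  clear v1 v2 hw hu
  rcases t1 with ⟨p, q, r⟩ | ⟨p, q, r⟩ | ⟨p, q, r⟩ | ⟨p, q, r⟩ | ⟨p, q, r⟩ | ⟨p, q, r⟩ |
    ⟨p, q, r⟩ | ⟨p, q, r⟩ | ⟨p, q, r⟩ | ⟨p, q, r⟩ | ⟨p, q, r⟩ | ⟨p, q, r⟩ | ⟨p, q, r⟩ |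
    ⟨p, q, r⟩ <;> try (exfalso; revert r; norm_num; done)
  all_goals
    rcases t2 with ⟨p', q', r'⟩ | ⟨p', q', r'⟩ | ⟨p', q', r'⟩ | ⟨p', q', r'⟩ | ⟨p', q', r'⟩ |
      ⟨p', q', r'⟩ | ⟨p', q', r'⟩ | ⟨p', q', r'⟩ | ⟨p', q', r'⟩ | ⟨p', q', r'⟩ | ⟨p', q', r'⟩ |
      ⟨p', q', r'⟩ | ⟨p', q', r'⟩ | ⟨p', q', r'⟩ <;> omega

/-- two left children with the same data have the same parents -/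
theorem inj_LL {s1 h1 e1 s2 h2 e2 : ℤ} (v1 : Valid s1 h1 e1) (v2 : Valid s2 h2 e2)
    (hs : s1 + om s1 h1 e1 = s2 + om s2 h2 e2) (hh : 2 * h1 = 2 * h2)
    (he : (s1 + om s1 h1 e1) % 4 = 0 → om s1 h1 e1 = om s2 h2 e2) :
    s1 = s2 ∧ h1 = h2 ∧ om s1 h1 e1 = om s2 h2 e2 := by
  rcases om_cases (s := s1) (h := h1) v1.1 with hw | hw <;>
  rcases om_cases (s := s2) (h := h2) v2.1 with hu | hu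
  · exact ⟨by omega, by omega, by omega⟩
  · exact (noLL v1 v2 hw hu (by omega) (by omega) (by omega)).elim
  · exact (noLL v2 v1 hu hw (by omega) (by omega) (by omega)).elim
  · exact ⟨by omega, by omega, by omega⟩

/-- two right children with the same data have the same parents -/
theorem inj_RR {s1 h1 e1 s2 h2 e2 : ℤ} (v1 : Valid s1 h1 e1) (v2 : Valid s2 h2 e2)
    (hs : s1 - om s1 h1 e1 = s2 - om s2 h2 e2)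
    (hh : 2 * h1 + s1 + om s1 h1 e1 = 2 * h2 + s2 + om s2 h2 e2)
    (he : (s1 - om s1 h1 e1) % 4 = 0 → - om s1 h1 e1 = - om s2 h2 e2) :
    s1 = s2 ∧ h1 = h2 ∧ om s1 h1 e1 = om s2 h2 e2 := by
  rcases om_cases (s := s1) (h := h1) v1.1 with hw | hw <;>
  rcases om_cases (s := s2) (h := h2) v2.1 with hu | hu
  · exact ⟨by omega, by omega, by omega⟩
  · exact (noRR v1 v2 hw hu (by omega) (by omega) (by omega)).elim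
  · exact (noRR v2 v1 hu hw (by omega) (by omega) (by omega)).elim
  · exact ⟨by omega, by omega, by omega⟩

/-- a left child and a right child never have the same data -/
theorem inj_LR {s1 h1 e1 s2 h2 e2 : ℤ} (v1 : Valid s1 h1 e1) (v2 : Valid s2 h2 e2)
    (hs : s1 + om s1 h1 e1 = s2 - om s2 h2 e2)
    (hh : 2 * h1 = 2 * h2 + s2 + om s2 h2 e2)
    (he : (s1 + om s1 h1 e1) % 4 = 0 → om s1 h1 e1 = - om s2 h2 e2) : False := by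
  rcases om_cases (s := s1) (h := h1) v1.1 with hw | hw <;>
  rcases om_cases (s := s2) (h := h2) v2.1 with hu | hu
  · exact noLRpp v1 v2 hw hu (by omega) (by omega) (by omega)
  · exact noLRpm v1 v2 hw hu (by omega) (by omega)
  · exact noLRmp v1 v2 hw hu (by omega) (by omega)
  · exact noLRmm v1 v2 hw hu (by omega) (by omega) (by omega)

end Pool.Agent.N766.TK
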