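import Pool.Agent.N766.TK.Inj

namespace Pool.Agent.N766.TK

theorem om_zero {s h e : ℤ} (hs : s % 4 = 0) : om s h e = e := by
  unfold om; simp [hs]

/-- the state of the left (`b = 0`) or right child -/
def child (p : ℤ × ℤ × ℤ) (b : ℕ) : ℤ × ℤ × ℤ :=
  if b = 0 then (p.1 + om p.1 p.2.1 p.2.2, 2 * p.2.1, om p.1 p.2.1 p.2.2)
  else (p.1 - om p.1 p.2.1 p.2.2, 2 * p.2.1 + p.1 + om p.1 p.2.1 p.2.2, - om p.1 p.2.1 p.2.2)

/-- the state of the `j`-th dyadic interval of level `n` -/
def st : ℕ → ℕ → ℤ × ℤ × ℤ
  | 0, _ => (0, 2, 1)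
  | n + 1, j => child (st n (j / 2)) (j % 2)

theorem st_valid (n : ℕ) : ∀ j : ℕ, Valid (st n j).1 (st n j).2.1 (st n j).2.2 := by
  induction n with
  | zero => intro j; simp [st, Valid]
  | succ n ih =>
    intro j
    have h := ih (j / 2)
    simp only [st, child]
    split_ifs
    · exact valid_left h
    · exact valid_right h

theorem st_abs (n : ℕ) : ∀ j : ℕ, -(n : ℤ) ≤ (st n j).1 ∧ (st n j).1 ≤ n := by
  induction n with
  | zero => intro j; simp [st]
  | succ n ih =>
    intro j
    have h := ih (j / 2)
    have hv := (st_valid n (j / 2)).1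
    have hc := om_cases (s := (st n (j / 2)).1) (h := (st n (j / 2)).2.1) hv
    simp only [st, child]
    push_cast
    split_ifs
    · dsimp only
      rcases hc with hc | hc <;> rw [hc] <;> omega
    · dsimp only
      rcases hc with hc | hc <;> rw [hc] <;> omega

theorem st_inj (n : ℕ) : ∀ j j' : ℕ, j < 2 ^ n → j' < 2 ^ n → (st n j).1 = (st n j').1 →
    (st n j).2.1 = (st n j').2.1 → ((st n j).1 % 4 = 0 → (st n j).2.2 = (st n j').2.2) →
    j = j' := by
  induction n with
  | zero => intro j j' h h' _ _ _; simp at h h'; omega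
  | succ n ih =>
    intro j j' h h' hs hh he
    have hi : j / 2 < 2 ^ n := by rw [pow_succ] at h; omega
    have hi' : j' / 2 < 2 ^ n := by rw [pow_succ] at h'; omega
    have v := st_valid n (j / 2)
    have v' := st_valid n (j' / 2)
    simp only [st, child] at hs hh he
    have fin : (st n (j / 2)).1 = (st n (j' / 2)).1 → (st n (j / 2)).2.1 = (st n (j' / 2)).2.1 →
        om (st n (j / 2)).1 (st n (j / 2)).2.1 (st n (j / 2)).2.2 =
          om (st n (j' / 2)).1 (st n (j' / 2)).2.1 (st n (j' / 2)).2.2 → j / 2 = j' / 2 := by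
      intro a b c
      refine ih _ _ hi hi' a b ?_
      intro d
      rw [om_zero d, om_zero (by rw [← a]; exact d)] at c
      exact c
    split_ifs at hs hh he with b1 b2 b2
    · dsimp only at hs hh he
      obtain ⟨a, b, c⟩ := inj_LL v v' hs hh he
      have := fin a b c
      omega
    · dsimp only at hs hh he
      exact (inj_LR v v' hs (by linarith) he).elim
    · dsimp only at hs hh he
      exact (inj_LR v' v hs.symm (by linarith) (fun q => by
        have := he (by rw [hs]; exact q)
        linarith)).elim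
    · dsimp only at hs hh he
      obtain ⟨a, b, c⟩ := inj_RR v v' hs hh he
      have := fin a b c
      omega

end Pool.Agent.N766.TK
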